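import Mathlib
import Pool.Agent.H28.UAlg3

open MeasureTheory Filter Topology
open scoped ENNReal NNReal ComplexConjugate

noncomputable section

namespace Pool.Agent.Results.MP_dbea21_an.NotDense

open Pool.Agent.H28.UAlg

instance fin : IsFiniteMeasure (glue fun _ : Bool => wm 1) := by
  unfold glue
  infer_instance

theorem result :
    ∃ (S : Type) (_ : TopologicalSpace S) (_ : CompactSpace S) (_ : T2Space S)
      (_ : MeasurableSpace S) (_ : BorelSpace S) (A : Subalgebra ℂ C(S, ℂ))
      (μ σ : FiniteMeasure S),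
      Good A ∧ L1Dense A μ ∧ Greatest A (K A μ) σ ∧ WkClosure A σ ≠ Set.univ := by
  refine ⟨PD Bool, inferInstance, inferInstance, inferInstance, inferInstance, inferInstance,
    Alg Bool, ⟨glue fun _ => wm 1, fin⟩, ⟨glue fun _ => wm 1, fin⟩, good,
    l1dense (fun _ => 1), ?_, ?_⟩
  · rw [K_eq (fun _ => 1)]
    exact ⟨rfl, by rintro ν rfl f -; exact le_rfl⟩
  · intro h
    set F : C(PD Bool, ℂ) := ⟨fun s => ((‖(s true : ℂ)‖ : ℝ) : ℂ), by fun_prop⟩ with hF
    have ha : ∀ _ : Bool, (1 : ℝ≥0) ≠ 0 := fun _ => one_ne_zero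
    have := wk_annih (Alg Bool) ⟨glue fun _ => wm 1, fin⟩
      (fun s => kn (fun _ => 1) true s - kn (fun _ => 1) false s)
      ((kn_int _ true one_ne_zero).sub (kn_int _ false one_ne_zero))
      (fun f hf g hg => kn_annih (fun _ => 1) ha true false f hf g hg)
      (ContinuousMap.toLp ⊤ (glue fun _ : Bool => wm 1) ℂ F) (h ▸ Set.mem_univ _)
    rw [integral_congr_ae (g := fun s => F s * (kn (fun _ => 1) true s - kn (fun _ => 1) false s))]
      at this
    · change ∫ s, F s * (kn (fun _ => 1) true s - kn (fun _ => 1) false s)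
        ∂(glue fun _ : Bool => wm 1) = 0 at this
      rw [integral_mul_kn_sub (fun _ => 1) ha true false F F.continuous] at this
      have e1 : ∀ θ, F (e true θ) = 1 := fun θ => by
        simp only [hF, ContinuousMap.coe_mk, e_self, norm_f1, Complex.ofReal_one]
      have e2 : ∀ θ, F (e false θ) = 0 := fun θ => by
        simp only [hF, ContinuousMap.coe_mk, e_ne (show true ≠ false by simp), norm_zero,
          Complex.ofReal_zero]
      simp [e1, e2] at this
    · filter_upwards [ContinuousMap.coeFn_toLp (p := ⊤) (glue fun _ : Bool => wm 1) (𝕜 := ℂ) F]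
        with s hs
      exact congrArg (· * _) hs

end Pool.Agent.Results.MP_dbea21_an.NotDense
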